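import Pool.Agent.Q44.TI.Sel2
import Pool.Agent.Y700.Sel

/-!
# The rank, the Tate-Shafarevich group and the two isogeny Selmer groups
-/

set_option autoImplicit false

open scoped Classical

namespace Q44.TI

open WeierstrassCurve

open Pool.Agent.W262.SH (QB Pt act IsCoc IsCob LocTriv shaCoc cob Sha)
open Pool.Agent.TH841.SH Pool.Agent.Y668
open Pool.Agent.Y700 (exists_SR diff_rat)

/-- the number of the Selmer cocycles -/
theorem card_sel2 {A B : ℤ} (hB : B ≠ 0) (hC : A ^ 2 - 4 * B ≠ 0)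
    (hf1 : (SelS A B).Finite) (hf2 : (SelS (-2 * A) (A ^ 2 - 4 * B)).Finite) :
    Finite (selCoc (Wt (A : ℚ) (B : ℚ))) ∧
      Nat.card (selCoc (Wt (A : ℚ) (B : ℚ))) ≤
        (SelS A B).ncard * (SelS (-2 * A) (A ^ 2 - 4 * B)).ncard := by
  have qb : (B : ℚ) ≠ 0 := by exact_mod_cast hB
  have qab : (A : ℚ) ^ 2 - 4 * (B : ℚ) ≠ 0 := by exact_mod_cast hC
  obtain ⟨e1, e2, hp12, hR, hne⟩ := exists_roots QB (A : ℚ) (B : ℚ)
  obtain ⟨n1, n2, n12⟩ := hne qb qab
  refine card_selCoc hR n1 n2 n12 hf1 hf2 ?_ ?_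
  · intro f hf z hz hse
    obtain ⟨s, hs⟩ := IsAlgClosed.exists_pow_nat_eq ((z : ℤ) : QB) (n := 2) (by norm_num)
    have hz0 := hz.ne_zero
    refine ⟨hz, fun p _ => ?_, ?_⟩
    · obtain ⟨x, y, hy, hxy, hsq⟩ := loc_z1 (K := ℚ_[p]) (Ω := AlgebraicClosure ℚ_[p])
        two_ne_zero qb qab f hf.2.1 (hf.2.2.2.1 p) (exists_S p hB hC) z s hs (hse s hs)
      rw [map_intCast, map_intCast] at hxy
      exact Loc_of_point (by exact_mod_cast hz0) hy hxy hsq
    · obtain ⟨x, y, hy, hxy, hsq⟩ := loc_z1 (K := ℝ) (Ω := AlgebraicClosure ℝ) two_ne_zero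
        qb qab f hf.2.1 hf.2.2.2.2 (exists_SR hB hC) z s hs (hse s hs)
      rw [map_intCast, map_intCast] at hxy
      exact Loc_of_point (by exact_mod_cast hz0) hy hxy hsq
  · intro f hf hX z hz hse
    obtain ⟨s, hs⟩ := IsAlgClosed.exists_pow_nat_eq ((z : ℤ) : QB) (n := 2) (by norm_num)
    have hz0 := hz.ne_zero
    have k1 : (-2 : ℚ) * (A : ℚ) = ((-2 * A : ℤ) : ℚ) := by push_cast; ring
    have k2 : (A : ℚ) ^ 2 - 4 * (B : ℚ) = ((A ^ 2 - 4 * B : ℤ) : ℚ) := by push_cast; ring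
    refine ⟨hz, fun p _ => ?_, ?_⟩
    · obtain ⟨x, y, hy, hxy, hsq⟩ := loc_z2 (K := ℚ_[p]) (Ω := AlgebraicClosure ℚ_[p]) two_ne_zero
        qb qab f hf.2.1 hX (hf.2.2.2.1 p) (exists_S p hB hC) z s hs (hse s hs)
      rw [k1, k2, map_intCast, map_intCast] at hxy
      exact Loc_of_point (by exact_mod_cast hz0) hy hxy hsq
    · obtain ⟨x, y, hy, hxy, hsq⟩ := loc_z2 (K := ℝ) (Ω := AlgebraicClosure ℝ) two_ne_zero
        qb qab f hf.2.1 hX hf.2.2.2.2 (exists_SR hB hC) z s hs (hse s hs)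
      rw [k1, k2, map_intCast, map_intCast] at hxy
      exact Loc_of_point (by exact_mod_cast hz0) hy hxy hsq

section ker

variable {a b : ℚ}

/-- **the rank, the Tate-Shafarevich group and the Selmer cocycles** -/
theorem card_ker (hb : b ≠ 0) (hab : a ^ 2 - 4 * b ≠ 0) (hsq : ¬ IsSquare (a ^ 2 - 4 * b))
    (hbs : ¬ IsSquare b) [hfin : Finite (selCoc (Wt a b))] :
    Finite {x : Sha (Wt a b) // x + x = 0} ∧
    4 * (2 ^ Module.finrank ℤ (Wt a b).toAffine.Point * Nat.card {x : Sha (Wt a b) // x + x = 0}) ≤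
      Nat.card (selCoc (Wt a b)) := by
  obtain ⟨e1, e2, hp12, hR, hne⟩ := exists_roots QB a b
  obtain ⟨n1, n2, n12⟩ := hne hb hab
  obtain ⟨j, hj, hjσ, hjf⟩ := exists_rat (Wt a b)
  have h2 : (2 : QB) ≠ 0 := two_ne_zero
  -- the roots are not rational
  have hirr : ∀ x : ℚ, algebraMap ℚ QB x ≠ e1 := by
    intro x hx
    apply hsq
    have hsum : e1 + e2 = -algebraMap ℚ QB a := by
      have h10 := hR.h2
      have h11 : ((Wt a b).baseChange QB).a₂ = algebraMap ℚ QB a := rfl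
      rw [h11] at h10
      linear_combination h10
    refine ⟨2 * x + a, (algebraMap ℚ QB).injective ?_⟩
    simp only [map_sub, map_mul, map_pow, map_add, map_ofNat]
    rw [← hp12, hx]
    have : algebraMap ℚ QB a = -(e1 + e2) := by linear_combination hsum
    rw [this]
    ring
  -- the point `(e1, 0)`
  have hn1 : ((Wt a b).baseChange QB).toAffine.Nonsingular e1 0 := hR.nons h2 n1 n2 n12 (by ring)
  set P1 : Pt (Wt a b) QB := .some e1 0 hn1 with hP1
  have hP1' : P1 + P1 = 0 := (hR.rot.add_self h2 hn1).2 rfl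
  have hc : ∀ (g : (Wt a b).toAffine.Point) (Q : Pt (Wt a b) QB), j g = Q + Q →
      (fun σ : QB ≃ₐ[ℚ] QB => act (Wt a b) σ.toAlgHom Q - Q) ∈ selCoc (Wt a b) := by
    intro g Q hQ
    apply cob_selCoc
    intro σ
    have e3 : act (Wt a b) σ.toAlgHom Q - Q + (act (Wt a b) σ.toAlgHom Q - Q) =
      (act (Wt a b) σ.toAlgHom Q + act (Wt a b) σ.toAlgHom Q) - (Q + Q) := by abel
    rw [e3, ← map_add, ← hQ, hjσ, sub_self]
  -- the point `(0, 0)`
  have hnT : (Wt a b).toAffine.Nonsingular 0 0 := by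
    rw [Affine.nonsingular_iff]
    refine ⟨?_, Or.inl ?_⟩
    · rw [Affine.equation_iff]
      show (0 : ℚ) ^ 2 + 0 * 0 * 0 + 0 * 0 = 0 ^ 3 + a * 0 ^ 2 + b * 0 + 0
      ring
    · show (0 : ℚ) * 0 ≠ 3 * 0 ^ 2 + 2 * a * 0 + b
      intro h
      apply hb
      linear_combination -h
  set T : (Wt a b).toAffine.Point := .some 0 0 hnT with hT
  have hT0 : T ≠ 0 := Affine.Point.some_ne_zero _
  have hTT : T + T = 0 := by
    apply Affine.Point.add_self_of_Y_eq
    show (0 : ℚ) = -0 - 0 * 0 - 0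
    ring
  -- `T` is not twice a point
  have h4 : ∀ x : (Wt a b).toAffine.Point, x + x ≠ T := by
    intro x hx
    rcases x with _ | ⟨u, v, hn⟩
    · exact hT0 (hx.symm.trans (add_zero _))
    · by_cases hv : v = v - 2 * v
      · have hv0 : v = 0 := by linarith
        have : (Affine.Point.some u v hn : (Wt a b).toAffine.Point) + .some u v hn = 0 := by
          apply Affine.Point.add_self_of_Y_eq
          show v = -v - 0 * u - 0
          rw [hv0]; ring
        rw [this] at hx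
        exact hT0 hx.symm
      · have hY : v ≠ (Wt a b).toAffine.negY u v := by
          show v ≠ -v - 0 * u - 0
          intro h; apply hv; linarith
        have hv0 : v ≠ 0 := fun h => hv (by rw [h]; ring)
        have he : v ^ 2 = u ^ 3 + a * u ^ 2 + b * u := by
          have := hn.1
          rw [Affine.equation_iff] at this
          have h' : v ^ 2 + 0 * u * v + 0 * v = u ^ 3 + a * u ^ 2 + b * u + 0 := this
          linear_combination h'
        rw [Affine.Point.add_self_of_Y_ne hY, hT, Affine.Point.some.injEq] at hx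
        obtain ⟨hx1, -⟩ := hx
        rw [Affine.slope_of_Y_ne rfl hY] at hx1
        have hx2 : ((3 * u ^ 2 + 2 * a * u + b - 0 * v) / (v - (-v - 0 * u - 0))) ^ 2 +
          0 * ((3 * u ^ 2 + 2 * a * u + b - 0 * v) / (v - (-v - 0 * u - 0))) - a - u - u = 0 := hx1
        apply hbs
        refine ⟨u, ?_⟩
        have e0 : v - (-v - 0 * u - 0) = 2 * v := by ring
        rw [e0] at hx2
        have hv2 : (2 * v) ≠ 0 := mul_ne_zero two_ne_zero hv0
        have hx3 : (3 * u ^ 2 + 2 * a * u + b) ^ 2 - (a + 2 * u) * (4 * v ^ 2) = 0 := by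
          field_simp at hx2
          linear_combination hx2
        have hx4 : (u ^ 2 - b) ^ 2 = 0 := by
          rw [he] at hx3
          linear_combination hx3
        have := pow_eq_zero_iff (two_ne_zero) |>.1 hx4
        linear_combination -this
  obtain ⟨QT, hQT⟩ := hR.div h2 n1 n2 n12 (j T)
  have hz : j (0 : (Wt a b).toAffine.Point) = P1 + P1 := by rw [hP1', map_zero]
  set f1 : selCoc (Wt a b) := ⟨_, hc 0 P1 hz⟩ with hf1
  set f2 : selCoc (Wt a b) := ⟨_, hc T QT hQT⟩ with hf2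
  have hT2 : ∀ q : (Wt a b).toAffine.Point, T ≠ 0 + (q + q) := by
    intro q hq
    rw [zero_add] at hq
    exact h4 q hq.symm
  have k1 : f1 ≠ 0 := by
    intro h
    have h' : ∀ σ : QB ≃ₐ[ℚ] QB, σ e1 = e1 := by
      intro σ
      have h5 : act (Wt a b) σ.toAlgHom P1 - P1 = 0 := congrFun (congrArg Subtype.val h) σ
      rw [sub_eq_zero, hP1, act_some, Affine.Point.some.injEq] at h5
      exact h5.1
    obtain ⟨y, hy⟩ := fix_mem (K := ℚ) e1 h'
    exact hirr y hy
  have hz0 : j (0 : (Wt a b).toAffine.Point) = 0 + 0 := by rw [map_zero, add_zero]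
  have k2 : f2 ≠ 0 := by
    intro h
    obtain ⟨q, hq⟩ := diff_rat hj hjf hQT hz0 (fun σ => by
      have h5 : act (Wt a b) σ.toAlgHom QT - QT = 0 := congrFun (congrArg Subtype.val h) σ
      rw [h5, map_zero, sub_zero])
    exact hT2 q hq
  have k3 : f2 ≠ f1 := by
    intro h
    obtain ⟨q, hq⟩ := diff_rat hj hjf hQT hz (fun σ => congrFun (congrArg Subtype.val h) σ)
    exact hT2 q hq
  have two0 : ∀ f : selCoc (Wt a b), f + f = 0 := by
    intro f
    apply Subtype.ext
    funext σ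
    exact f.2.2.1 σ
  have k4 : f1 + f2 ≠ 0 := by
    intro h
    apply k3
    have : f2 = f1 + f2 - f1 := by abel
    rw [this, h, zero_sub]
    exact neg_eq_of_add_eq_zero_left (two0 f1)
  have k5 : f1 + f2 ≠ f1 := fun h => k2 (add_eq_left.1 h)
  have k6 : f1 + f2 ≠ f2 := fun h => k1 (add_eq_right.1 h)
  -- the kernel
  set K : AddSubgroup (selCoc (Wt a b)) := (toShaC (Wt a b)).ker with hK
  have hexK : ∀ f : K, ∃ g : (Wt a b).toAffine.Point, ∃ Q : Pt (Wt a b) QB, j g = Q + Q ∧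
      ∀ σ, (f.1 : (QB ≃ₐ[ℚ] QB) → Pt (Wt a b) QB) σ = act (Wt a b) σ.toAlgHom Q - Q := by
    intro f
    obtain ⟨P, hP⟩ := (toShaC_ker _ _).1 f.2
    obtain ⟨g, hg⟩ := hjf (P + P) (by
      intro σ
      have e3 := f.1.2.2.1 σ
      rw [hP σ] at e3
      rw [map_add]
      have e4 : act (Wt a b) σ.toAlgHom P + act (Wt a b) σ.toAlgHom P =
          (act (Wt a b) σ.toAlgHom P - P + (act (Wt a b) σ.toAlgHom P - P)) + (P + P) := by abel
      rw [e4, e3, zero_add])
    exact ⟨g, P, hg, hP⟩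
  choose g Qc hQc hcK using hexK
  -- the subgroup generated by `T` and the doubles
  let D : AddSubgroup (Wt a b).toAffine.Point :=
    { carrier := {x | ∃ q, x = q + q ∨ x = T + (q + q)}
      zero_mem' := ⟨0, Or.inl (add_zero 0).symm⟩
      add_mem' := by
        rintro x y ⟨q, hq⟩ ⟨r, hr⟩
        rcases hq with hq | hq <;> rcases hr with hr | hr
        · exact ⟨q + r, Or.inl (by rw [hq, hr]; abel)⟩
        · exact ⟨q + r, Or.inr (by rw [hq, hr]; abel)⟩
        · exact ⟨q + r, Or.inr (by rw [hq, hr]; abel)⟩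
        · refine ⟨q + r, Or.inl ?_⟩
          rw [hq, hr]
          have : T + (q + q) + (T + (r + r)) = (T + T) + (q + r + (q + r)) := by abel
          rw [this, hTT, zero_add]
      neg_mem' := by
        rintro x ⟨q, hq⟩
        rcases hq with hq | hq
        · exact ⟨-q, Or.inl (by rw [hq]; abel)⟩
        · refine ⟨-q, Or.inr ?_⟩
          have hnT' : -T = T := neg_eq_of_add_eq_zero_left hTT
          rw [hq]
          have : -(T + (q + q)) = -T + (-q + -q) := by abel
          rw [this, hnT'] }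
  have hD2 : ∀ q, q + q ∈ D := fun q => ⟨q, Or.inl rfl⟩
  have hDT : T ∈ D := ⟨0, Or.inr (by rw [add_zero, add_zero])⟩
  have hsame : ∀ (f : K) (g' : (Wt a b).toAffine.Point) (Q' : Pt (Wt a b) QB), j g' = Q' + Q' →
      (∀ σ, (f.1 : (QB ≃ₐ[ℚ] QB) → Pt (Wt a b) QB) σ = act (Wt a b) σ.toAlgHom Q' - Q') →
      (QuotientAddGroup.mk (g f) : (Wt a b).toAffine.Point ⧸ D) = QuotientAddGroup.mk g' := by
    intro f g' Q' h1 h3
    obtain ⟨q, hq⟩ := diff_rat hj hjf h1 (hQc f) (fun σ => by rw [← h3 σ, ← hcK f σ])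
    rw [QuotientAddGroup.eq]
    have e5 : -g f + g' = q + q := by
      rw [hq]
      abel
    rw [e5]
    exact hD2 q
  let φ : K →+ (Wt a b).toAffine.Point ⧸ D :=
    AddMonoidHom.mk' (fun f => (QuotientAddGroup.mk (g f) : (Wt a b).toAffine.Point ⧸ D)) (by
      intro f f'
      rw [hsame (f + f') (g f + g f') (Qc f + Qc f') (by rw [map_add, hQc f, hQc f']; abel) (by
        intro σ
        have e6 : ((f + f' : K).1 : (QB ≃ₐ[ℚ] QB) → Pt (Wt a b) QB) σ =
            (f.1 : (QB ≃ₐ[ℚ] QB) → Pt (Wt a b) QB) σ +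
            (f'.1 : (QB ≃ₐ[ℚ] QB) → Pt (Wt a b) QB) σ := rfl
        rw [e6, hcK f σ, hcK f' σ, map_add]
        abel)]
      rfl)
  have hφ : ∀ f, φ f = QuotientAddGroup.mk (g f) := fun f => rfl
  have hsurj : Function.Surjective φ := by
    intro x
    obtain ⟨y, rfl⟩ := QuotientAddGroup.mk_surjective x
    obtain ⟨Q, hQ⟩ := hR.div h2 n1 n2 n12 (j y)
    have hk : (⟨_, hc y Q hQ⟩ : selCoc (Wt a b)) ∈ K := by
      rw [hK, toShaC_ker]
      exact ⟨Q, fun σ => rfl⟩
    refine ⟨⟨_, hk⟩, ?_⟩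
    rw [hφ]
    exact hsame ⟨_, hk⟩ y Q hQ fun σ => rfl
  -- the elements of the kernel of `φ`
  have hf1K : f1 ∈ K := by
    rw [hK, toShaC_ker]
    exact ⟨P1, fun σ => rfl⟩
  have hf2K : f2 ∈ K := by
    rw [hK, toShaC_ker]
    exact ⟨QT, fun σ => rfl⟩
  have hm1 : φ ⟨f1, hf1K⟩ = 0 := by
    rw [hφ, hsame ⟨f1, hf1K⟩ 0 P1 hz fun σ => rfl]
    rfl
  have hm2 : φ ⟨f2, hf2K⟩ = 0 := by
    rw [hφ, hsame ⟨f2, hf2K⟩ T QT hQT fun σ => rfl]
    exact (QuotientAddGroup.eq_zero_iff _).2 hDT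
  have hKfin : Finite K := inferInstance
  have hcard4 : 4 ≤ Nat.card φ.ker := by
    have hF : Fintype φ.ker := Fintype.ofFinite _
    let u1 : φ.ker := ⟨⟨f1, hf1K⟩, hm1⟩
    let u2 : φ.ker := ⟨⟨f2, hf2K⟩, hm2⟩
    have v1 : u1 ≠ 0 := fun h => k1 (congrArg (fun t : φ.ker => t.1.1) h)
    have v2 : u2 ≠ 0 := fun h => k2 (congrArg (fun t : φ.ker => t.1.1) h)
    have v3 : u2 ≠ u1 := fun h => k3 (congrArg (fun t : φ.ker => t.1.1) h)
    have v4 : u1 + u2 ≠ 0 := fun h => k4 (congrArg (fun t : φ.ker => t.1.1) h)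
    have v5 : u1 + u2 ≠ u1 := fun h => k5 (congrArg (fun t : φ.ker => t.1.1) h)
    have v6 : u1 + u2 ≠ u2 := fun h => k6 (congrArg (fun t : φ.ker => t.1.1) h)
    have hS4 : ({0, u1, u2, u1 + u2} : Finset φ.ker).card = 4 := by
      rw [Finset.card_insert_of_notMem, Finset.card_insert_of_notMem,
        Finset.card_insert_of_notMem, Finset.card_singleton]
      · simp only [Finset.mem_singleton]
        exact fun h => v6 h.symm
      · simp only [Finset.mem_insert, Finset.mem_singleton, not_or]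
        exact ⟨fun h => v3 h.symm, fun h => v5 h.symm⟩
      · simp only [Finset.mem_insert, Finset.mem_singleton, not_or]
        exact ⟨fun h => v1 h.symm, fun h => v2 h.symm, fun h => v4 h.symm⟩
    rw [Nat.card_eq_fintype_card, ← hS4]
    exact Finset.card_le_univ _
  have hcardK : Nat.card K = Nat.card ((Wt a b).toAffine.Point ⧸ D) * Nat.card φ.ker := by
    rw [AddSubgroup.card_eq_card_quotient_mul_card_addSubgroup φ.ker]
    congr 1
    exact Nat.card_congr (QuotientAddGroup.quotientKerEquivOfSurjective φ hsurj).toEquiv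
  -- the rank
  have hfg : AddGroup.FG (Wt a b).toAffine.Point := fg_Wt hb hab
  let N : Submodule ℤ (Wt a b).toAffine.Point := Submodule.span ℤ {T}
  have hNt : N ≤ Submodule.torsion ℤ (Wt a b).toAffine.Point := by
    rw [Submodule.span_le, Set.singleton_subset_iff]
    refine (Submodule.mem_torsion_iff _).2 ⟨⟨2, mem_nonZeroDivisors_of_ne_zero two_ne_zero⟩, ?_⟩
    show (2 : ℤ) • T = 0
    exact (two_zsmul T).trans hTT
  have hfinM : Module.Finite ℤ (Wt a b).toAffine.Point := Module.Finite.iff_addGroup_fg.mpr hfg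
  have hrk : Module.finrank ℤ ((Wt a b).toAffine.Point ⧸ N) =
      Module.finrank ℤ (Wt a b).toAffine.Point := finrank_quotient_eq_of_le_torsion hNt
  have hfg' : AddGroup.FG ((Wt a b).toAffine.Point ⧸ N) := Module.Finite.iff_addGroup_fg.mp
    inferInstance
  have hQf : Finite ((Wt a b).toAffine.Point ⧸ D) := Finite.of_surjective φ hsurj
  have hQF : Fintype ((Wt a b).toAffine.Point ⧸ D) := Fintype.ofFinite _
  have hrank : 2 ^ Module.finrank ℤ (Wt a b).toAffine.Point ≤
      Nat.card ((Wt a b).toAffine.Point ⧸ D) := by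
    rw [← hrk]
    set S : Finset ((Wt a b).toAffine.Point ⧸ N) := Finset.univ.image
      (fun x : (Wt a b).toAffine.Point ⧸ D => N.mkQ (Quotient.out x)) with hS
    have hScard : S.card ≤ Nat.card ((Wt a b).toAffine.Point ⧸ D) := by
      rw [Nat.card_eq_fintype_card]
      exact Finset.card_image_le
    refine Pool.Agent.W505.RK.rkb _ hfg' _ S hScard fun x => ?_
    obtain ⟨y, rfl⟩ := N.mkQ_surjective x
    have h5 : (QuotientAddGroup.mk (Quotient.out
        (QuotientAddGroup.mk y : (Wt a b).toAffine.Point ⧸ D)) :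
        (Wt a b).toAffine.Point ⧸ D) = QuotientAddGroup.mk y := Quotient.out_eq _
    rw [QuotientAddGroup.eq] at h5
    have hNT : N.mkQ T = 0 := by
      rw [Submodule.mkQ_apply, Submodule.Quotient.mk_eq_zero]
      exact Submodule.subset_span rfl
    obtain ⟨q, hq⟩ := h5
    refine ⟨N.mkQ (Quotient.out (QuotientAddGroup.mk y : (Wt a b).toAffine.Point ⧸ D)),
      Finset.mem_image.2 ⟨_, Finset.mem_univ _, rfl⟩, N.mkQ q, ?_⟩
    set o := Quotient.out (QuotientAddGroup.mk y : (Wt a b).toAffine.Point ⧸ D) with ho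
    rcases hq with hq | hq
    · have e7 : y = o + (q + q) := by
        rw [← hq]
        abel
      rw [e7, map_add, map_add]
    · have e7 : y = o + (T + (q + q)) := by
        rw [← hq]
        abel
      rw [e7, map_add, map_add, hNT, zero_add, map_add]
  -- the assembly
  have e1' : Nat.card {x : Sha (Wt a b) // x + x = 0} = Nat.card (toShaC (Wt a b)).range :=
    Nat.card_congr (Equiv.subtypeEquivRight (fun x => (toShaC_range hR n1 n2 n12 x).symm))
  have hfr : Finite (toShaC (Wt a b)).range :=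
    Finite.of_surjective _ (toShaC (Wt a b)).rangeRestrict_surjective
  have e2' : Nat.card (selCoc (Wt a b)) = Nat.card (toShaC (Wt a b)).range * Nat.card K := by
    rw [AddSubgroup.card_eq_card_quotient_mul_card_addSubgroup K]
    congr 1
    exact Nat.card_congr (QuotientAddGroup.quotientKerEquivRange (toShaC (Wt a b))).toEquiv
  refine ⟨Finite.of_equiv _ (Equiv.subtypeEquivRight (fun x => toShaC_range hR n1 n2 n12 x)), ?_⟩
  rw [e1', e2', hcardK]
  calc 4 * (2 ^ Module.finrank ℤ (Wt a b).toAffine.Point * Nat.card (toShaC (Wt a b)).range)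
      = Nat.card (toShaC (Wt a b)).range *
        (2 ^ Module.finrank ℤ (Wt a b).toAffine.Point * 4) := by ring
    _ ≤ _ := Nat.mul_le_mul_left _ (Nat.mul_le_mul hrank hcard4)

end ker

/-- **the bound** -/
theorem sha_bound {A B : ℤ} (hB : ¬ IsSquare B) (hC : ¬ IsSquare (A ^ 2 - 4 * B))
    (hf1 : (SelS A B).Finite) (hf2 : (SelS (-2 * A) (A ^ 2 - 4 * B)).Finite) :
    Finite {x : Sha (Wt (A : ℚ) (B : ℚ)) // x + x = 0} ∧
    4 * (2 ^ Module.finrank ℤ (Wt (A : ℚ) (B : ℚ)).toAffine.Point *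
      Nat.card {x : Sha (Wt (A : ℚ) (B : ℚ)) // x + x = 0}) ≤
        (SelS A B).ncard * (SelS (-2 * A) (A ^ 2 - 4 * B)).ncard := by
  have hB0 : B ≠ 0 := by rintro rfl; exact hB ⟨0, by ring⟩
  have hC0 : A ^ 2 - 4 * B ≠ 0 := by intro h; rw [h] at hC; exact hC ⟨0, by ring⟩
  obtain ⟨h1, h2⟩ := card_sel2 hB0 hC0 hf1 hf2
  have qb : (B : ℚ) ≠ 0 := by exact_mod_cast hB0
  have qab : (A : ℚ) ^ 2 - 4 * (B : ℚ) ≠ 0 := by exact_mod_cast hC0
  obtain ⟨k1, k2⟩ := card_ker (a := (A : ℚ)) (b := (B : ℚ)) qb qab (by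
      intro h
      apply hC
      have h3 : IsSquare ((A ^ 2 - 4 * B : ℤ) : ℚ) := by
        push_cast
        exact h
      exact (Rat.isSquare_intCast_iff).1 h3) (by
      intro h
      exact hB ((Rat.isSquare_intCast_iff).1 h))
  exact ⟨k1, k2.trans h2⟩

end Q44.TI
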