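import Pool.Agent.Q44.TI.Prim
import Pool.Agent.TH838.PS.Quad
import Pool.Agent.Q283.GM.RC

/-!
# The residue classes of the active and of the passive primes
-/

set_option autoImplicit false

open scoped Classical

namespace Q44.TI

open Finset
open Q283.GM (RC Fam)

variable {A B : ℤ}

/-- the modulus -/
def md (A B : ℤ) : ℕ := 8 * (B * (A ^ 2 - 4 * B)).natAbs

/-- the active classes -/
noncomputable def clA (A B : ℤ) : Finset ℕ := (range (md A B)).filter fun r =>
  r % 8 = 1 ∧ r.Coprime (md A B) ∧ ∀ l ∈ (md A B).primeFactors, l ≠ 2 → IsSquare (r : ZMod l)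

/-- the passive classes -/
noncomputable def clB (A B : ℤ) : Finset ℕ := (range (md A B)).filter fun r =>
  r.Coprime (md A B) ∧ jacobiSym B r = -1 ∧ jacobiSym (A ^ 2 - 4 * B) r = -1

theorem md_pos (hB : B ≠ 0) (hC : A ^ 2 - 4 * B ≠ 0) : 0 < md A B := by
  unfold md
  have := Int.natAbs_pos.2 (mul_ne_zero hB hC)
  omega

theorem eight_dvd (A B : ℤ) : 8 ∣ md A B := Dvd.intro _ rfl

theorem dvd_md {l : ℕ} (hl : l.Prime) (h2 : l ≠ 2) :
    l ∣ md A B ↔ (l : ℤ) ∣ B * (A ^ 2 - 4 * B) := by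
  unfold md
  rw [Int.natCast_dvd]
  constructor
  · intro h
    rcases hl.dvd_mul.1 h with h1 | h1
    · exfalso
      have h3 : l ∣ 2 ^ 3 := by simpa using h1
      exact h2 ((Nat.prime_dvd_prime_iff_eq hl Nat.prime_two).1 (hl.dvd_of_dvd_pow h3))
    · exact h1
  · intro h
    exact h.mul_left 8

/-- the symbols of the numbers whose prime factors have the symbol one -/
theorem jac_one {r : ℕ} (h8 : r % 8 = 1) : ∀ n : ℕ, n ≠ 0 →
    (∀ l : ℕ, l.Prime → l ∣ n → l ≠ 2 → IsSquare (r : ZMod l) ∧ r.Coprime l) →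
    jacobiSym (n : ℤ) r = 1 := by
  have hro : Odd r := by rw [Nat.odd_iff]; omega
  have hr4 : r % 4 = 1 := by omega
  intro n
  induction n using Nat.strong_induction_on with
  | _ n ih =>
    intro hn hl
    by_cases h1 : n = 1
    · subst h1
      rw [Nat.cast_one]
      exact jacobiSym.one_left r
    · obtain ⟨l, hlp, m, rfl⟩ := Nat.exists_prime_and_dvd h1
      have hm : m ≠ 0 := right_ne_zero_of_mul hn
      have hlt : m < l * m := by
        have := hlp.two_le
        have := Nat.pos_of_ne_zero hm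
        nlinarith
      have i1 := ih m hlt hm fun q hq hqm => hl q hq (hqm.mul_left l)
      push_cast
      rw [jacobiSym.mul_left, i1, mul_one]
      by_cases h2 : l = 2
      · subst h2
        rw [Nat.cast_ofNat, jacobiSym.at_two hro]
        have h3 : ((r : ℕ) : ZMod 8) = 1 := by
          have h4 := (ZMod.natCast_eq_natCast_iff r 1 8).2 (by
            show r % 8 = 1 % 8
            omega)
          rw [h4]
          rfl
        rw [h3]
        decide
      · obtain ⟨k1, k2⟩ := hl l hlp (Dvd.intro _ rfl) h2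
        have hlo : Odd l := hlp.odd_of_ne_two h2
        have : Fact l.Prime := ⟨hlp⟩
        have hrec : jacobiSym (r : ℤ) l = jacobiSym (l : ℤ) r :=
          jacobiSym.quadratic_reciprocity_one_mod_four hr4 hlo
        rw [← hrec, ← jacobiSym.legendreSym.to_jacobiSym, legendreSym.eq_one_iff]
        · rw [Int.cast_natCast]
          exact k1
        · rw [Int.cast_natCast, Ne, ZMod.natCast_eq_zero_iff]
          intro h
          exact hlp.one_lt.ne' (Nat.Coprime.eq_one_of_dvd k2.symm h)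

theorem jac_one' {r : ℕ} (h8 : r % 8 = 1) {n : ℤ} (hn : n ≠ 0)
    (hl : ∀ l : ℕ, l.Prime → (l : ℤ) ∣ n → l ≠ 2 → IsSquare (r : ZMod l) ∧ r.Coprime l) :
    jacobiSym n r = 1 := by
  have h1 := jac_one h8 n.natAbs (Int.natAbs_ne_zero.2 hn) fun l hlp hln h2 =>
    hl l hlp (Int.natCast_dvd.2 hln) h2
  rcases Int.natAbs_eq n with e | e
  · rw [e]
    exact h1
  · rw [e, jacobiSym.neg _ (by rw [Nat.odd_iff]; omega), h1, mul_one,
      ZMod.χ₄_nat_one_mod_four (by omega)]

/-- the symbols are periodic -/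
theorem jac_mod {n : ℤ} {m p : ℕ} (hd : 4 * n.natAbs ∣ m) (h2 : Odd p) (h2' : Odd (p % m)) :
    jacobiSym n (p % m) = jacobiSym n p := by
  rw [jacobiSym.mod_right n h2', Nat.mod_mod_of_dvd p hd, ← jacobiSym.mod_right n h2]

theorem dvd_B (A B : ℤ) : 4 * B.natAbs ∣ md A B := by
  unfold md
  rw [Int.natAbs_mul]
  exact ⟨2 * (A ^ 2 - 4 * B).natAbs, by ring⟩

theorem dvd_C (A B : ℤ) : 4 * (A ^ 2 - 4 * B).natAbs ∣ md A B := by
  unfold md
  rw [Int.natAbs_mul]
  exact ⟨2 * B.natAbs, by ring⟩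

theorem odd_of_cop {r : ℕ} (h : r.Coprime (md A B)) : Odd r := by
  rw [← Nat.not_even_iff_odd]
  intro he
  have h1 : 2 ∣ r := he.two_dvd
  have h2 : 2 ∣ md A B := (by norm_num : 2 ∣ 8).trans (eight_dvd A B)
  have := Nat.dvd_gcd h1 h2
  rw [h] at this
  omega

theorem cop_mod {p m : ℕ} : (p % m).Coprime m ↔ p.Coprime m := by
  unfold Nat.Coprime
  rw [← Nat.gcd_rec, Nat.gcd_comm]

/-- the residue classes -/
noncomputable def rcl (A B : ℤ) (hB : ¬ IsSquare B) (hC : ¬ IsSquare (A ^ 2 - 4 * B)) : RC where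
  m := md A B
  𝒜 := clA A B
  ℬ := clB A B
  h4 := (by norm_num : 4 ∣ 8).trans (eight_dvd A B)
  pos := md_pos (by rintro rfl; exact hB ⟨0, by ring⟩) (by
    intro h; rw [h] at hC; exact hC ⟨0, by ring⟩)
  hA := by
    intro a ha
    obtain ⟨h1, h2, h3, -⟩ := mem_filter.1 ha
    exact ⟨mem_range.1 h1, h3, by omega⟩
  h1 := by
    have hpos := md_pos (A := A) (B := B) (by rintro rfl; exact hB ⟨0, by ring⟩) (by
      intro h; rw [h] at hC; exact hC ⟨0, by ring⟩)
    obtain ⟨k, hk⟩ := eight_dvd A B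
    refine mem_filter.2 ⟨mem_range.2 (by omega), by norm_num, Nat.coprime_one_left _, fun l _ _ => ?_⟩
    rw [Nat.cast_one]
    exact IsSquare.one
  hB := by
    intro b hb
    obtain ⟨h1, h2, -⟩ := mem_filter.1 hb
    exact ⟨mem_range.1 h1, h2⟩
  hBn := by
    have hB0 : B ≠ 0 := by rintro rfl; exact hB ⟨0, by ring⟩
    have hC0 : A ^ 2 - 4 * B ≠ 0 := by intro h; rw [h] at hC; exact hC ⟨0, by ring⟩
    have hpos := md_pos hB0 hC0
    obtain ⟨p, hp1, hp2, hp3, hp4⟩ := Pool.Agent.TH838.PS.two_neg B (A ^ 2 - 4 * B) hB hC (md A B)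
    have hcop : p.Coprime (md A B) := (Nat.Prime.coprime_iff_not_dvd hp2).2
      (Nat.not_dvd_of_pos_of_lt hpos hp1)
    have hpo := odd_of_cop hcop
    have hcop' : (p % md A B).Coprime (md A B) := cop_mod.2 hcop
    have hpo' := odd_of_cop hcop'
    have : Fact p.Prime := ⟨hp2⟩
    refine ⟨p % md A B, mem_filter.2 ⟨mem_range.2 (Nat.mod_lt _ hpos), hcop', ?_, ?_⟩⟩
    · rw [jac_mod (dvd_B A B) hpo hpo', ← jacobiSym.legendreSym.to_jacobiSym,
        legendreSym.eq_neg_one_iff]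
      exact hp3
    · rw [jac_mod (dvd_C A B) hpo hpo', ← jacobiSym.legendreSym.to_jacobiSym,
        legendreSym.eq_neg_one_iff]
      exact hp4
  dis := by
    rw [Finset.disjoint_left]
    intro r hr hr'
    have hB0 : B ≠ 0 := by rintro rfl; exact hB ⟨0, by ring⟩
    have hC0 : A ^ 2 - 4 * B ≠ 0 := by intro h; rw [h] at hC; exact hC ⟨0, by ring⟩
    have hpos := md_pos hB0 hC0
    obtain ⟨-, h8, hc, hsq⟩ := mem_filter.1 hr
    obtain ⟨-, -, hj, -⟩ := mem_filter.1 hr'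
    have h1 : jacobiSym B r = 1 := by
      refine jac_one' h8 hB0 fun l hl hlB h2 => ?_
      have hlm : l ∣ md A B := (dvd_md hl h2).2 (hlB.mul_right _)
      exact ⟨hsq l (Nat.mem_primeFactors.2 ⟨hl, hlm, hpos.ne'⟩) h2, hc.coprime_dvd_right hlm⟩
    rw [h1] at hj
    norm_num at hj

variable (hB : ¬ IsSquare B) (hC : ¬ IsSquare (A ^ 2 - 4 * B))

theorem ne_of_nsq {n : ℤ} (h : ¬ IsSquare n) : n ≠ 0 := by
  rintro rfl
  exact h ⟨0, by ring⟩

theorem A_iff (p : ℕ) : (rcl A B hB hC).Φ.A p ↔ Act A B p := by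
  have hB0 := ne_of_nsq hB
  have hC0 := ne_of_nsq hC
  have hpos := md_pos hB0 hC0
  have e : (rcl A B hB hC).Φ.A p ↔ p.Prime ∧ p % md A B ∈ clA A B := Iff.rfl
  rw [e]
  unfold Act clA
  refine and_congr_right fun hp => ?_
  have hpf : Fact p.Prime := ⟨hp⟩
  rw [mem_filter, Nat.mod_mod_of_dvd p (eight_dvd A B), cop_mod]
  constructor
  · rintro ⟨-, h8, hc, hsq⟩
    have hp2 : p ≠ 2 := by rintro rfl; omega
    refine ⟨h8, fun hd => ?_, fun l hl hd => ?_⟩
    · have h1 := (dvd_md hp hp2).2 hd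
      exact hp.one_lt.ne' (Nat.Coprime.eq_one_of_dvd hc h1)
    · by_cases h2 : l = 2
      · subst h2
        exact_mod_cast (ZMod.exists_sq_eq_two_iff hp2).2 (Or.inl h8)
      · have hlm := (dvd_md hl h2).2 hd
        have h3 := hsq l (Nat.mem_primeFactors.2 ⟨hl, hlm, hpos.ne'⟩) h2
        have hlf : Fact l.Prime := ⟨hl⟩
        rw [ZMod.exists_sq_eq_prime_iff_of_mod_four_eq_one (by omega) h2]
        have e1 : ((p % md A B : ℕ) : ZMod l) = (p : ZMod l) := by
          rw [← ZMod.natCast_mod, Nat.mod_mod_of_dvd p hlm, ZMod.natCast_mod]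
        rwa [e1] at h3
  · rintro ⟨h8, hd, hsq⟩
    have hp2 : p ≠ 2 := by rintro rfl; omega
    refine ⟨mem_range.2 (Nat.mod_lt _ hpos), h8, ?_, fun l hl h2 => ?_⟩
    · rw [hp.coprime_iff_not_dvd]
      exact fun h => hd ((dvd_md hp hp2).1 h)
    · obtain ⟨hlp, hlm, -⟩ := Nat.mem_primeFactors.1 hl
      have hlf : Fact l.Prime := ⟨hlp⟩
      have h3 := hsq l hlp ((dvd_md hlp h2).1 hlm)
      rw [ZMod.exists_sq_eq_prime_iff_of_mod_four_eq_one (by omega) h2] at h3
      have e1 : ((p % md A B : ℕ) : ZMod l) = (p : ZMod l) := by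
        rw [← ZMod.natCast_mod, Nat.mod_mod_of_dvd p hlm, ZMod.natCast_mod]
      rwa [e1]

theorem B_iff (p : ℕ) : (rcl A B hB hC).Φ.B p ↔ Pas A B p := by
  have hB0 := ne_of_nsq hB
  have hC0 := ne_of_nsq hC
  have hpos := md_pos hB0 hC0
  have e : (rcl A B hB hC).Φ.B p ↔ p.Prime ∧ p % md A B ∈ clB A B := Iff.rfl
  rw [e]
  unfold clB
  constructor
  · rintro ⟨hp, h⟩
    obtain ⟨-, hc, h1, h2⟩ := mem_filter.1 h
    have hpf : Fact p.Prime := ⟨hp⟩
    have hpo' := odd_of_cop hc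
    have hpo := odd_of_cop (cop_mod.1 hc)
    rw [jac_mod (dvd_B A B) hpo hpo', ← jacobiSym.legendreSym.to_jacobiSym,
        legendreSym.eq_neg_one_iff] at h1
    rw [jac_mod (dvd_C A B) hpo hpo', ← jacobiSym.legendreSym.to_jacobiSym,
        legendreSym.eq_neg_one_iff] at h2
    exact ⟨hp, h1, h2⟩
  · intro h
    have hp := h.1
    have hpf : Fact p.Prime := ⟨hp⟩
    have hc : p.Coprime (md A B) := by
      rw [hp.coprime_iff_not_dvd]
      intro hd
      have h1 := (dvd_md hp h.two_ne).1 hd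
      rcases (Nat.prime_iff_prime_int.1 hp).dvd_or_dvd h1 with h2 | h2
      · exact h.nB h2
      · exact h.nC h2
    have hpo := odd_of_cop hc
    have hc' : (p % md A B).Coprime (md A B) := cop_mod.2 hc
    have hpo' := odd_of_cop hc'
    refine ⟨hp, mem_filter.2 ⟨mem_range.2 (Nat.mod_lt _ hpos), hc', ?_, ?_⟩⟩
    · rw [jac_mod (dvd_B A B) hpo hpo', ← jacobiSym.legendreSym.to_jacobiSym,
        legendreSym.eq_neg_one_iff]
      exact h.2.1
    · rw [jac_mod (dvd_C A B) hpo hpo', ← jacobiSym.legendreSym.to_jacobiSym,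
        legendreSym.eq_neg_one_iff]
      exact h.2.2

theorem P_iff (p : ℕ) : (rcl A B hB hC).Φ.P p ↔ Act A B p ∨ Pas A B p := by
  unfold Fam.P
  rw [A_iff, B_iff]

end Q44.TI
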