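import Pool.Agent.Q44.TI.Sel2
import Pool.Agent.Q283.GM.Stm

/-!
# The matrix of a twist
-/

set_option autoImplicit false

open scoped Classical

namespace Q44.TI

open Finset
open Q283.GM (Fam Kr mem_Kr rk)
open Pool.Agent.Y703.CQ (nr)

/-- the matrix over the field with two elements: rows and columns indexed by the active primes -/
noncomputable def Mx (A B : ℤ) (S : Finset ℕ) : Matrix (PA A B S) (PA A B S) (ZMod 2) :=
  Matrix.of fun i j =>
    if i = j then
      (((S.filter fun r : ℕ => r ≠ (i : ℕ) ∧ ¬ IsSquare (r : ZMod (i : ℕ))).card : ZMod 2) +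
        fd A B i)
    else nr i j

theorem nr_self (p : ℕ) : nr p p = 0 := by
  rw [nr_ch, ch_zero, ZMod.natCast_self]
  exact ⟨0, by ring⟩

theorem sum_nr (p : ℕ) (S : Finset ℕ) : ∑ q ∈ S, nr p q =
    ((S.filter fun r : ℕ => r ≠ p ∧ ¬ IsSquare (r : ZMod p)).card : ZMod 2) := by
  rw [Finset.card_filter]
  push_cast
  refine Finset.sum_congr rfl fun q _ => ?_
  unfold nr
  by_cases h : IsSquare (q : ZMod p)
  · rw [if_pos h, if_neg fun h' => h'.2 h]
  · rw [if_neg h]
    by_cases hq : q = p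
    · exfalso
      apply h
      rw [hq, ZMod.natCast_self]
      exact ⟨0, by ring⟩
    · rw [if_pos ⟨hq, h⟩]

variable {A B : ℤ}

/-- a row of the system -/
theorem rowA (S : Finset ℕ) (x : ℕ → ZMod 2) (hx : ∀ p, p ∉ PA A B S → x p = 0)
    (i : PA A B S) :
    (Mx A B S).mulVec (fun j => x j) i =
      ∑ q ∈ S, nr i q * (x q + x i) + fd A B i * x i := by
  have e1 : ∑ q ∈ S, nr i q * (x q + x i) =
      ∑ q ∈ PA A B S, nr i q * x q + (∑ q ∈ S, nr i q) * x i := by
    rw [Finset.sum_mul]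
    have : ∑ q ∈ PA A B S, nr i q * x q = ∑ q ∈ S, nr i q * x q := by
      refine Finset.sum_subset PA_sub fun q _ hq => ?_
      rw [hx q hq, mul_zero]
    rw [this, ← Finset.sum_add_distrib]
    exact Finset.sum_congr rfl fun q _ => by ring
  have e2 : ∑ q ∈ PA A B S, nr i q * x q = ∑ j : PA A B S, nr i j * x j :=
    (Finset.sum_coe_sort (PA A B S) (fun q => nr i q * x q)).symm
  rw [e1, e2]
  unfold Matrix.mulVec dotProduct
  rw [← Finset.add_sum_erase univ _ (Finset.mem_univ i),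
    ← Finset.add_sum_erase univ (fun j : PA A B S => nr i j * x j) (Finset.mem_univ i), nr_self,
    zero_mul, zero_add]
  have e3 : ∑ j ∈ univ.erase i, Mx A B S i j * x j =
      ∑ j ∈ univ.erase i, nr i j * x j := by
    refine Finset.sum_congr rfl fun j hj => ?_
    have hne : i ≠ j := fun h => (Finset.mem_erase.1 hj).1 h.symm
    congr 1
    unfold Mx
    rw [Matrix.of_apply, if_neg hne]
  rw [e3]
  have e4 : Mx A B S i i = ∑ q ∈ S, nr i q + fd A B i := by
    unfold Mx
    rw [Matrix.of_apply, if_pos rfl, sum_nr]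
  show Mx A B S i i * x i + _ = _
  rw [e4]
  ring

/-- restriction to the active primes -/
noncomputable def res (A B : ℤ) (S : Finset ℕ) :
    (ℕ → ZMod 2) →ₗ[ZMod 2] (PA A B S → ZMod 2) :=
  LinearMap.funLeft (ZMod 2) (ZMod 2) (fun j : PA A B S => (j : ℕ))

theorem res_apply (S : Finset ℕ) (x : ℕ → ZMod 2) (j : PA A B S) : res A B S x j = x j := rfl

section fam

variable {Φ : Fam} (hΦ : ∀ p, Φ.A p ↔ Act A B p)
include hΦ

theorem supp_iff {S : Finset ℕ} {p : ℕ} : (p ∈ S ∧ Φ.A p) ↔ p ∈ PA A B S := by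
  rw [mem_PA, hΦ]

theorem mem_Kr' {f : ℕ → ZMod 2} {S : Finset ℕ} {x : ℕ → ZMod 2} :
    x ∈ Kr Φ f S ↔ (∀ p, p ∉ PA A B S → x p = 0) ∧
      ∀ p ∈ PA A B S, ∑ q ∈ S, nr p q * (x q + x p) + f p * x p = 0 := by
  rw [mem_Kr]
  refine and_congr (forall_congr' fun p => ?_) ?_
  · rw [supp_iff hΦ]
  · constructor
    · intro h p hp
      have h1 := (supp_iff hΦ).2 hp
      exact h p h1.1 h1.2
    · intro h p hp ha
      exact h p ((supp_iff hΦ).1 ⟨hp, ha⟩)

/-- the kernel of the matrix -/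
theorem ker_eq (S : Finset ℕ) : (Kr Φ (fd A B) S).map (res A B S) =
    LinearMap.ker (Mx A B S).mulVecLin := by
  ext v
  rw [Submodule.mem_map, LinearMap.mem_ker, Matrix.mulVecLin_apply]
  constructor
  · rintro ⟨x, hx, rfl⟩
    obtain ⟨h1, h2⟩ := (mem_Kr' hΦ).1 hx
    funext i
    exact (rowA S x h1 i).trans (h2 i i.2)
  · intro hv
    set x : ℕ → ZMod 2 := fun p => if h : p ∈ PA A B S then v ⟨p, h⟩ else 0 with hx
    have e : res A B S x = v := by
      funext j
      rw [res_apply, hx]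
      simp only [j.2, dite_true]
    have h0 : ∀ p, p ∉ PA A B S → x p = 0 := fun p hp => dif_neg hp
    refine ⟨x, (mem_Kr' hΦ).2 ⟨h0, fun p hp => ?_⟩, e⟩
    have h1 := rowA S x h0 ⟨p, hp⟩
    rw [← e] at hv
    have h2 := congrFun hv ⟨p, hp⟩
    exact h1.symm.trans h2

theorem res_inj (S : Finset ℕ) {x : ℕ → ZMod 2} (hx : x ∈ Kr Φ (fd A B) S)
    (h : res A B S x = 0) : x = 0 := by
  obtain ⟨h1, -⟩ := (mem_Kr' hΦ).1 hx
  funext p
  by_cases hp : p ∈ PA A B S
  · exact congrFun h ⟨p, hp⟩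
  · exact h1 p hp

/-- the corank is the dimension of the kernel of the matrix -/
theorem rk_eq (S : Finset ℕ) : rk Φ (fd A B) S =
    Module.finrank (ZMod 2) (LinearMap.ker (Mx A B S).mulVecLin) := by
  unfold rk
  rw [← ker_eq hΦ]
  have hinj : Function.Injective ((res A B S).domRestrict (Kr Φ (fd A B) S)) := by
    rw [← LinearMap.ker_eq_bot, Submodule.eq_bot_iff]
    rintro ⟨x, hx⟩ h
    rw [LinearMap.mem_ker] at h
    exact Subtype.ext (res_inj hΦ S hx h)
  have h2 : LinearMap.range ((res A B S).domRestrict (Kr Φ (fd A B) S)) =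
      (Kr Φ (fd A B) S).map (res A B S) := by
    rw [LinearMap.range_domRestrict]
  rw [← h2]
  exact (LinearEquiv.ofInjective _ hinj).finrank_eq

/-- the number of the elements of the kernel -/
theorem card_Kr (S : Finset ℕ) : Nat.card (Kr Φ (fd A B) S) = 2 ^ rk Φ (fd A B) S := by
  have hfin : Finite (Kr Φ (fd A B) S) := by
    refine Finite.of_injective (fun x : Kr Φ (fd A B) S => res A B S x) ?_
    intro x y h
    have h1 : res A B S ((x : ℕ → ZMod 2) - y) = 0 := by
      rw [map_sub]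
      exact sub_eq_zero.2 h
    have h2 := res_inj hΦ S (Submodule.sub_mem _ x.2 y.2) h1
    exact Subtype.ext (sub_eq_zero.1 h2)
  have := Fintype.ofFinite (Kr Φ (fd A B) S)
  have h3 := Module.card_eq_pow_finrank (K := ZMod 2) (V := Kr Φ (fd A B) S)
  rw [Nat.card_eq_fintype_card, h3, ZMod.card]
  rfl

/-- the indicator function -/
noncomputable def ind (J : Finset ℕ) (p : ℕ) : ZMod 2 := if p ∈ J then 1 else 0

theorem Ker_iff {S J : Finset ℕ} (hJ : J ⊆ PA A B S) :
    Ker A B S J ↔ ind J ∈ Kr Φ (fd A B) S := by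
  have hrow : ∀ i ∈ PA A B S, (i ∈ J → ∑ q ∈ S, nr i q * (ind J q + ind J i) +
      fd A B i * ind J i = fd A B i + ∑ q ∈ S \ J, nr i q) ∧
      (i ∉ J → ∑ q ∈ S, nr i q * (ind J q + ind J i) + fd A B i * ind J i =
        ∑ j ∈ J, nr i j) := by
    intro i _
    constructor
    · intro hi
      have e0 : ind J i = 1 := if_pos hi
      rw [e0, mul_one, add_comm]
      congr 1
      rw [← Finset.sum_sdiff (hJ.trans PA_sub)]
      have e1 : ∑ q ∈ J, nr i q * (ind J q + 1) = 0 := by
        refine Finset.sum_eq_zero fun q hq => ?_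
        have : ind J q = 1 := if_pos hq
        rw [this, CharTwo.add_self_eq_zero, mul_zero]
      rw [e1, add_zero]
      refine Finset.sum_congr rfl fun q hq => ?_
      have : ind J q = 0 := if_neg (Finset.mem_sdiff.1 hq).2
      rw [this, zero_add, mul_one]
    · intro hi
      have e0 : ind J i = 0 := if_neg hi
      rw [e0, mul_zero, add_zero, ← Finset.sum_sdiff (hJ.trans PA_sub)]
      have e1 : ∑ q ∈ S \ J, nr i q * (ind J q + 0) = 0 := by
        refine Finset.sum_eq_zero fun q hq => ?_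
        have : ind J q = 0 := if_neg (Finset.mem_sdiff.1 hq).2
        rw [this, add_zero, mul_zero]
      rw [e1, zero_add]
      refine Finset.sum_congr rfl fun q hq => ?_
      have : ind J q = 1 := if_pos hq
      rw [this, add_zero, mul_one]
  rw [mem_Kr' hΦ]
  constructor
  · rintro ⟨-, h1, h2⟩
    refine ⟨fun p hp => if_neg fun h => hp (hJ h), fun p hpP => ?_⟩
    by_cases hpJ : p ∈ J
    · rw [(hrow p hpP).1 hpJ]
      exact h2 p hpJ
    · rw [(hrow p hpP).2 hpJ]
      exact h1 p (Finset.mem_sdiff.2 ⟨hpP, hpJ⟩)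
  · rintro ⟨-, h2⟩
    refine ⟨hJ, fun i hi => ?_, fun i hi => ?_⟩
    · obtain ⟨h3, h4⟩ := Finset.mem_sdiff.1 hi
      rw [← (hrow i h3).2 h4]
      exact h2 i h3
    · have h3 := hJ hi
      rw [← (hrow i h3).1 hi]
      exact h2 i h3

/-- **the number of the sets** -/
theorem card_KS (S : Finset ℕ) : (KS A B S).card = 2 ^ rk Φ (fd A B) S := by
  rw [← card_Kr hΦ, ← Nat.card_eq_finsetCard]
  refine Nat.card_congr
    { toFun := fun J => ⟨ind J.1, (Ker_iff hΦ (mem_KS.1 J.2).1).1 (mem_KS.1 J.2)⟩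
      invFun := fun x => ⟨(PA A B S).filter fun p => x.1 p ≠ 0, ?_⟩
      left_inv := ?_
      right_inv := ?_ }
  · rw [mem_KS, Ker_iff hΦ (Finset.filter_subset _ _)]
    have e : ind ((PA A B S).filter fun p => x.1 p ≠ 0) = x.1 := by
      funext p
      unfold ind
      by_cases hp : p ∈ PA A B S
      · by_cases hx : x.1 p = 0
        · have h0 : p ∉ (PA A B S).filter fun p => x.1 p ≠ 0 := fun h =>
            absurd hx (Finset.mem_filter.1 h).2
          rw [if_neg h0, hx]
        · rw [if_pos (Finset.mem_filter.2 ⟨hp, hx⟩)]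
          have k1 : ∀ y : ZMod 2, y ≠ 0 → 1 = y := by decide
          exact k1 _ hx
      · rw [if_neg (fun h => hp (Finset.mem_filter.1 h).1)]
        exact (((mem_Kr' hΦ).1 x.2).1 p hp).symm
    rw [e]
    exact x.2
  · rintro ⟨J, hJ⟩
    apply Subtype.ext
    ext p
    simp only [Finset.mem_filter]
    constructor
    · rintro ⟨h1, h2⟩
      by_contra h3
      exact h2 (if_neg h3)
    · intro h
      refine ⟨(mem_KS.1 hJ).1 h, ?_⟩
      have : ind J p = 1 := if_pos h
      rw [this]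
      exact one_ne_zero
  · rintro ⟨x, hx⟩
    apply Subtype.ext
    funext p
    show ind _ p = x p
    unfold ind
    by_cases hp : p ∈ PA A B S
    · by_cases hx' : x p = 0
      · have h0 : p ∉ (PA A B S).filter fun p => x p ≠ 0 := fun h =>
          absurd hx' (Finset.mem_filter.1 h).2
        exact (if_neg h0).trans hx'.symm
      · rw [if_pos (Finset.mem_filter.2 ⟨hp, hx'⟩)]
        have k1 : ∀ y : ZMod 2, y ≠ 0 → 1 = y := by decide
        exact k1 _ hx'
    · rw [if_neg (fun h => hp (Finset.mem_filter.1 h).1)]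
      exact (((mem_Kr' hΦ).1 hx).1 p hp).symm

end fam

end Q44.TI
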