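import Pool.Agent.Q44.TI.Cls
import Pool.Agent.Q44.TI.Law
import Pool.Agent.Q44.TI.Mat
import Pool.Agent.Q44.TI.Sha
import Pool.Agent.Q283.GM.Eul

/-!
# The Selmer groups of the twists of a curve with an isogeny of degree two
-/

set_option autoImplicit false

open scoped Classical

namespace Q44.TI

open Finset
open Q283.GM (Fam Kr rk cR)
open Pool.Agent.Y703.CQ (nr)
open Pool.Agent.Y668 (Wt)
open Pool.Agent.W262.SH (Sha)

variable {a b : ℤ}

/-! ### the dual curve -/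

theorem PA_dual (S : Finset ℕ) : PA (-2 * a) (a ^ 2 - 4 * b) S = PA a b S := by
  unfold PA
  exact Finset.filter_congr fun p _ => act_dual

theorem fd_dual {p : ℕ} (hb : b ≠ 0) (hc : a ^ 2 - 4 * b ≠ 0) (h : Act a b p) :
    fd (-2 * a) (a ^ 2 - 4 * b) p = fd a b p := by
  have h1 := root_dual h hb hc
  unfold fd
  by_cases h2 : ∃ y : ZMod p, y ^ 4 + (a : ZMod p) * y ^ 2 + (b : ZMod p) = 0
  · rw [if_pos h2, if_pos (h1.2 h2)]
  · rw [if_neg h2, if_neg fun h3 => h2 (h1.1 h3)]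

theorem Ker_dual (hb : b ≠ 0) (hc : a ^ 2 - 4 * b ≠ 0) (S J : Finset ℕ) :
    Ker (-2 * a) (a ^ 2 - 4 * b) S J ↔ Ker a b S J := by
  unfold Ker
  rw [PA_dual]
  refine and_congr_right fun hJ => and_congr_right fun _ => ?_
  refine forall_congr' fun i => forall_congr' fun hi => ?_
  rw [fd_dual hb hc (mem_PA.1 (hJ hi)).2]

theorem KS_dual (hb : b ≠ 0) (hc : a ^ 2 - 4 * b ≠ 0) (S : Finset ℕ) :
    KS (-2 * a) (a ^ 2 - 4 * b) S = KS a b S := by
  ext J
  rw [mem_KS, mem_KS, Ker_dual hb hc]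

theorem Cl_dual {S : Finset ℕ} (h : Cl a b S) : Cl (-2 * a) (a ^ 2 - 4 * b) S := by
  intro p hp
  rcases h p hp with h1 | h1
  · exact Or.inl (act_dual.2 h1)
  · exact Or.inr (pas_dual.2 h1)

theorem dual_ne (hb : b ≠ 0) : (-2 * a) ^ 2 - 4 * (a ^ 2 - 4 * b) ≠ 0 := by
  rw [dual_disc]
  exact mul_ne_zero (by norm_num) hb

theorem bad_dual (hb : b ≠ 0) (hc : a ^ 2 - 4 * b ≠ 0) :
    bad (-2 * a) (a ^ 2 - 4 * b) = bad a b := by
  ext p
  rw [mem_bad hc (dual_ne hb), mem_bad hb hc]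
  refine and_congr_right fun hp => ?_
  have hP := Nat.prime_iff_prime_int.1 hp
  have h2 : ∀ n : ℤ, (p : ℤ) ∣ 2 * n ↔ p = 2 ∨ (p : ℤ) ∣ n := by
    intro n
    constructor
    · intro h
      rcases hP.dvd_or_dvd h with h1 | h1
      · left
        have h5 : p ∣ 2 := by exact_mod_cast h1
        exact (Nat.prime_dvd_prime_iff_eq hp Nat.prime_two).1 h5
      · exact Or.inr h1
    · rintro (rfl | h)
      · exact Dvd.intro _ rfl
      · exact h.mul_left _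
  rw [h2, h2, dvd_dual hp]
  tauto

/-! ### the class -/

/-- the class of the twists -/
def Cla (a b D : ℤ) : Prop :=
  Squarefree D ∧ ∀ p : ℕ, p.Prime → (p : ℤ) ∣ D → Act a b p ∨ Pas a b p

/-- the primes of `D` -/
def pr (D : ℤ) : Finset ℕ := D.natAbs.primeFactors

theorem Cla.cl {D : ℤ} (h : Cla a b D) : Cl a b (pr D) := fun p hp =>
  h.2 p (Nat.prime_of_mem_primeFactors hp) (Int.natCast_dvd.2 (Nat.dvd_of_mem_primeFactors hp))

theorem pd_pr {D : ℤ} (h : Squarefree D) : pd (pr D) = (D.natAbs : ℤ) := by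
  unfold pd pr
  rw [Nat.prod_primeFactors_of_squarefree (Int.squarefree_natAbs.2 h)]

theorem Cla.eq {D : ℤ} (h : Cla a b D) : D = pd (pr D) ∨ D = -pd (pr D) := by
  rw [pd_pr h.1]
  exact Int.natAbs_eq D

theorem cla_iff (D : ℕ) : Cla a b D ↔ Squarefree D ∧ ∀ p ∈ D.primeFactors,
    Act a b p ∨ Pas a b p := by
  unfold Cla
  rw [Int.squarefree_natCast]
  constructor
  · rintro ⟨h1, h2⟩
    exact ⟨h1, fun p hp => h2 p (Nat.prime_of_mem_primeFactors hp)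
      (Int.natCast_dvd_natCast.2 (Nat.dvd_of_mem_primeFactors hp))⟩
  · rintro ⟨h1, h2⟩
    exact ⟨h1, fun p hp hd => h2 p (Nat.mem_primeFactors.2
      ⟨hp, Int.natCast_dvd_natCast.1 hd, h1.ne_zero⟩)⟩

/-- the corank -/
noncomputable def crk (a b : ℤ) (S : Finset ℕ) : ℕ :=
  Module.finrank (ZMod 2) (LinearMap.ker (Mx a b S).mulVecLin)

/-- the order of the set of the kernel sets -/
theorem card_KS' (hb : ¬ IsSquare b) (hc : ¬ IsSquare (a ^ 2 - 4 * b)) (S : Finset ℕ) :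
    (KS a b S).card = 2 ^ crk a b S := by
  rw [card_KS (A_iff hb hc), rk_eq (A_iff hb hc)]
  rfl

/-- **the orders of the two Selmer groups**, for a set of primes -/
theorem main_set (hb : ¬ IsSquare b) (hc : ¬ IsSquare (a ^ 2 - 4 * b)) {S : Finset ℕ}
    (hS : Cl a b S) {D : ℤ} (hD : D = pd S ∨ D = -pd S) :
    ((SelS (a * D) (b * D ^ 2)).Finite ∧
      (SelS (a * D) (b * D ^ 2)).ncard = (Un a b D).ncard * 2 ^ crk a b S) ∧
    ((SelS (-2 * a * D) ((a ^ 2 - 4 * b) * D ^ 2)).Finite ∧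
      (SelS (-2 * a * D) ((a ^ 2 - 4 * b) * D ^ 2)).ncard =
        (Un (-2 * a) (a ^ 2 - 4 * b) D).ncard * 2 ^ crk a b S) := by
  have hb0 := ne_of_nsq hb
  have hc0 := ne_of_nsq hc
  have h1 := card_Sel hb0 hc0 hS hD
  have h2 := card_Sel hc0 (dual_ne (a := a) hb0) (Cl_dual hS) hD
  rw [KS_dual hb0 hc0] at h2
  rw [card_KS' hb hc] at h1 h2
  exact ⟨h1, h2⟩

/-! ### products -/

theorem pd_mul (S T : Finset ℕ) : pd S * pd T = pd (symmDiff S T) * pd (S ∩ T) ^ 2 := by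
  have h1 : pd S = pd (S ∩ T) * pd (S \ T) := by
    have := pd_sdiff (S := S) (J := S ∩ T) Finset.inter_subset_left
    rw [this]
    congr 2
    ext p
    simp only [Finset.mem_sdiff, Finset.mem_inter]
    tauto
  have h2 : pd T = pd (S ∩ T) * pd (T \ S) := by
    have := pd_sdiff (S := T) (J := S ∩ T) Finset.inter_subset_right
    rw [this]
    congr 2
    ext p
    simp only [Finset.mem_sdiff, Finset.mem_inter]
    tauto
  have h3 : pd (symmDiff S T) = pd (S \ T) * pd (T \ S) := by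
    unfold pd
    have e : symmDiff S T = (S \ T) ∪ (T \ S) := rfl
    rw [e, Finset.prod_union (by
      rw [Finset.disjoint_left]
      intro p hp hq
      exact (Finset.mem_sdiff.1 hp).2 (Finset.mem_sdiff.1 hq).1)]
    push_cast
    rfl
  rw [h3, h1, h2]
  ring

theorem Cl_symm {S T : Finset ℕ} (hS : Cl a b S) (hT : Cl a b T) : Cl a b (symmDiff S T) := by
  intro p hp
  rcases Finset.mem_symmDiff.1 hp with h | h
  · exact hS p h.1
  · exact hT p h.1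

theorem SelS_sq {a b D k : ℤ} (hk : k ≠ 0) :
    SelS (a * (D * k ^ 2)) (b * (D * k ^ 2) ^ 2) = SelS (a * D) (b * D ^ 2) := by
  unfold SelS
  ext z
  simp only [Set.mem_ofPred_eq]
  refine and_congr_right fun _ => and_congr ?_ ?_
  · refine forall_congr' fun p => forall_congr' fun hp => ?_
    exact Loc_sq' (by exact_mod_cast hk)
  · exact Loc_sq' (by exact_mod_cast hk)

theorem Un_sq {a b D k : ℤ} (hk : k ≠ 0) : Un a b (D * k ^ 2) = Un a b D := by
  unfold Un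
  ext z
  simp only [Set.mem_ofPred_eq]
  refine and_congr_right fun _ => and_congr_right fun _ => and_congr ?_ ?_
  · refine forall_congr' fun p => forall_congr' fun hp => forall_congr' fun _ => ?_
    exact Loc_sq' (by exact_mod_cast hk)
  · exact Loc_sq' (by exact_mod_cast hk)

/-- **the orders of the two Selmer groups** for a product of two numbers of the class -/
theorem main_mul (hb : ¬ IsSquare b) (hc : ¬ IsSquare (a ^ 2 - 4 * b)) {m D : ℤ}
    (hm : Cla a b m) (hD : Cla a b D) :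
    ((SelS (a * (m * D)) (b * (m * D) ^ 2)).Finite ∧
      (SelS (a * (m * D)) (b * (m * D) ^ 2)).ncard =
        (Un a b (m * D)).ncard * 2 ^ crk a b (symmDiff (pr D) (pr m))) ∧
    ((SelS (-2 * a * (m * D)) ((a ^ 2 - 4 * b) * (m * D) ^ 2)).Finite ∧
      (SelS (-2 * a * (m * D)) ((a ^ 2 - 4 * b) * (m * D) ^ 2)).ncard =
        (Un (-2 * a) (a ^ 2 - 4 * b) (m * D)).ncard * 2 ^ crk a b (symmDiff (pr D) (pr m))) := by
  have hS := Cl_symm hD.cl hm.cl
  have hk : pd (pr D ∩ pr m) ≠ 0 :=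
    (pd_pos fun p hp => hD.cl.prime p (Finset.mem_inter.1 hp).1).ne'
  obtain ⟨D1, h1, h2⟩ : ∃ D1 : ℤ, m * D = D1 * pd (pr D ∩ pr m) ^ 2 ∧
      (D1 = pd (symmDiff (pr D) (pr m)) ∨ D1 = -pd (symmDiff (pr D) (pr m))) := by
    have h := pd_mul (pr D) (pr m)
    rcases hm.eq with e1 | e1 <;> rcases hD.eq with e2 | e2
    · exact ⟨_, by rw [← h, ← e1, ← e2]; ring, Or.inl rfl⟩
    · refine ⟨_, ?_, Or.inr rfl⟩
      rw [neg_mul, ← h]
      nth_rewrite 1 [e1]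
      nth_rewrite 1 [e2]
      ring
    · refine ⟨_, ?_, Or.inr rfl⟩
      rw [neg_mul, ← h]
      nth_rewrite 1 [e1]
      nth_rewrite 1 [e2]
      ring
    · refine ⟨_, ?_, Or.inl rfl⟩
      rw [← h]
      nth_rewrite 1 [e1]
      nth_rewrite 1 [e2]
      ring
  rw [h1, SelS_sq hk, SelS_sq hk, Un_sq hk, Un_sq hk]
  exact main_set hb hc hS h2

/-! ### the rank and the Tate-Shafarevich group -/

theorem nsq_mul {n D : ℤ} (hn : ¬ IsSquare n) (hD : D ≠ 0) : ¬ IsSquare (n * D ^ 2) := by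
  rintro ⟨r, hr⟩
  apply hn
  have h1 : D ∣ r := by
    have : D ^ 2 ∣ r ^ 2 := ⟨n, by rw [sq r, ← hr]; ring⟩
    exact (Int.pow_dvd_pow_iff two_ne_zero).1 this
  obtain ⟨t, rfl⟩ := h1
  refine ⟨t, ?_⟩
  apply mul_right_cancel₀ (pow_ne_zero 2 hD)
  rw [hr]
  ring

theorem sha_main (hb : ¬ IsSquare b) (hc : ¬ IsSquare (a ^ 2 - 4 * b)) {D : ℤ} (hD : D ≠ 0)
    (h1 : (SelS (a * D) (b * D ^ 2)).Finite)
    (h2 : (SelS (-2 * a * D) ((a ^ 2 - 4 * b) * D ^ 2)).Finite) :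
    Finite {x : Sha (Wt ((a * D : ℤ) : ℚ) ((b * D ^ 2 : ℤ) : ℚ)) // x + x = 0} ∧
    4 * (2 ^ Module.finrank ℤ (Wt ((a * D : ℤ) : ℚ) ((b * D ^ 2 : ℤ) : ℚ)).toAffine.Point *
      Nat.card {x : Sha (Wt ((a * D : ℤ) : ℚ) ((b * D ^ 2 : ℤ) : ℚ)) // x + x = 0}) ≤
        (SelS (a * D) (b * D ^ 2)).ncard *
          (SelS (-2 * a * D) ((a ^ 2 - 4 * b) * D ^ 2)).ncard := by
  have e1 : -2 * (a * D) = -2 * a * D := by ring
  have e2 : (a * D) ^ 2 - 4 * (b * D ^ 2) = (a ^ 2 - 4 * b) * D ^ 2 := by ring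
  have h := sha_bound (A := a * D) (B := b * D ^ 2) (nsq_mul hb hD) (by
    rw [e2]
    exact nsq_mul hc hD) h1 (by rw [e1, e2]; exact h2)
  rw [e1, e2] at h
  exact h

/-- the bounds for the part supported on the bad primes -/
theorem Un_bd (hb : b ≠ 0) (hc : a ^ 2 - 4 * b ≠ 0) {D : ℤ} (hD : D ≠ 0) :
    (1 ≤ (Un a b D).ncard ∧ (Un a b D).ncard ≤ 2 ^ ((bad a b).card + 1)) ∧
    (1 ≤ (Un (-2 * a) (a ^ 2 - 4 * b) D).ncard ∧
      (Un (-2 * a) (a ^ 2 - 4 * b) D).ncard ≤ 2 ^ ((bad a b).card + 1)) := by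
  obtain ⟨h1, h2⟩ := Un_fin hb hc D
  obtain ⟨h3, h4⟩ := Un_fin hc (dual_ne (a := a) hb) D
  rw [bad_dual hb hc] at h4
  refine ⟨⟨?_, h2⟩, ?_, h4⟩
  · exact (Set.ncard_pos h1).2 ⟨1, one_Un hb hc hD⟩
  · exact (Set.ncard_pos h3).2 ⟨1, one_Un hc (dual_ne (a := a) hb) hD⟩

/-- the product of the orders -/
theorem prod_bd (hb : b ≠ 0) (hc : a ^ 2 - 4 * b ≠ 0) {D : ℤ} (hD : D ≠ 0) {N r : ℕ}
    (h : 4 * N ≤ ((Un a b D).ncard * 2 ^ r) * ((Un (-2 * a) (a ^ 2 - 4 * b) D).ncard * 2 ^ r)) :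
    N ≤ 4 ^ ((bad a b).card + r) := by
  obtain ⟨⟨-, h1⟩, -, h2⟩ := Un_bd hb hc hD
  have h3 : ((Un a b D).ncard * 2 ^ r) * ((Un (-2 * a) (a ^ 2 - 4 * b) D).ncard * 2 ^ r) ≤
      (2 ^ ((bad a b).card + 1) * 2 ^ r) * (2 ^ ((bad a b).card + 1) * 2 ^ r) :=
    Nat.mul_le_mul (Nat.mul_le_mul_right _ h1) (Nat.mul_le_mul_right _ h2)
  have e : (2 ^ ((bad a b).card + 1) * 2 ^ r) * (2 ^ ((bad a b).card + 1) * 2 ^ r) =
      4 * 4 ^ ((bad a b).card + r) := by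
    have : (4 : ℕ) = 2 ^ 2 := by norm_num
    rw [this, ← pow_mul, ← pow_add, ← pow_add, ← pow_add]
    congr 1
    ring
  rw [e] at h3
  omega

/-! ### the law -/

theorem P_prop (hb : ¬ IsSquare b) (hc : ¬ IsSquare (a ^ 2 - 4 * b)) {m : ℤ} (hm : Cla a b m) :
    ∀ p ∈ pr m, p.Prime ∧ p ≠ 2 ∧ p.Coprime (rcl a b hb hc).m := by
  intro p hp
  have h := (P_iff hb hc p).2 (hm.cl p hp)
  have h1 := (hm.cl).prime p hp
  refine ⟨h1, Q283.GM.Fam.ne_two h, ?_⟩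
  rcases h with h | h
  · have h2 : p % (rcl a b hb hc).m ∈ (rcl a b hb hc).𝒜 := h.2
    exact cop_mod.1 ((rcl a b hb hc).hA _ h2).2.1
  · have h2 : p % (rcl a b hb hc).m ∈ (rcl a b hb hc).ℬ := h.2
    exact cop_mod.1 ((rcl a b hb hc).hB _ h2).2

theorem law (hb : ¬ IsSquare b) (hc : ¬ IsSquare (a ^ 2 - 4 * b)) {M : ℕ} (m : Fin M → ℤ)
    (hm : ∀ k, Cla a b (m k)) (hinj : Function.Injective fun k => (m k).natAbs) (r : Fin M → ℕ) :
    Filter.Tendsto (fun X : ℕ => (((Icc 1 X).filter fun D : ℕ => Cla a b D ∧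
        ∀ k, crk a b (symmDiff (pr D) (pr (m k))) = r k).card : ℝ) /
      (((Icc 1 X).filter fun D : ℕ => Cla a b D).card : ℝ)) Filter.atTop (nhds (cR r)) := by
  have h := RC_law (rcl a b hb hc) (fd a b) r (fun k => pr (m k)) (fun k => P_prop hb hc (hm k))
    (by
      intro k l hkl he
      apply hkl
      apply hinj
      have e1 := pd_pr (hm k).1
      have e2 := pd_pr (hm l).1
      rw [he] at e1
      show (m k).natAbs = (m l).natAbs
      exact_mod_cast e1.symm.trans e2)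
  have hP : ∀ D : ℕ, (Squarefree D ∧ ∀ p ∈ D.primeFactors, (rcl a b hb hc).Φ.P p) ↔ Cla a b D := by
    intro D
    rw [cla_iff]
    refine and_congr_right fun _ => forall_congr' fun p => forall_congr' fun _ => ?_
    exact P_iff hb hc p
  refine h.congr fun X => ratio (fun D => ?_) (fun D => hP D) _
  rw [hP]
  refine and_congr_right fun _ => forall_congr' fun k => ?_
  have e : pr (D : ℤ) = D.primeFactors := by
    unfold pr
    rw [Int.natAbs_natCast]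
  rw [e, rk_eq (A_iff hb hc)]
  rfl

/-- the size of the class -/
theorem size (hb : ¬ IsSquare b) (hc : ¬ IsSquare (a ^ 2 - 4 * b)) :
    ∃ (c δ : ℝ) (X₀ : ℕ), 0 < c ∧ 0 < δ ∧ ∀ X : ℕ, X₀ ≤ X →
      c * X * (Real.log X) ^ (-1 + δ : ℝ) ≤ (((Icc 1 X).filter fun D : ℕ => Cla a b D).card : ℝ) := by
  obtain ⟨c, X₀, h1, h2⟩ := (rcl a b hb hc).ok.low
  refine ⟨c, (rcl a b hb hc).δ, X₀, h1, (rcl a b hb hc).ok.pos, fun X hX => ?_⟩
  refine (h2 X hX).trans (le_of_eq ?_)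
  have e2 := Q283.GM.card_eq (rcl a b hb hc).Φ X (fun _ => True)
  rw [Finset.filter_true] at e2
  simp only [and_true] at e2
  rw [← e2]
  congr 1
  refine cardf (fun D => ?_) _
  rw [cla_iff]
  refine and_congr_right fun _ => forall_congr' fun p => forall_congr' fun _ => ?_
  exact P_iff hb hc p

end Q44.TI
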