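import Mathlib

/-!
# Active and passive primes of the curve `y² = x³ + A x² + B x`
-/

set_option autoImplicit false

open scoped Classical

namespace Q44.TI

/-- the active primes: `1` modulo `8`, all the primes dividing `B (A² - 4 B)` are squares modulo `p` -/
def Act (A B : ℤ) (p : ℕ) : Prop :=
  p.Prime ∧ p % 8 = 1 ∧ ¬ (p : ℤ) ∣ B * (A ^ 2 - 4 * B) ∧
    ∀ l : ℕ, l.Prime → (l : ℤ) ∣ B * (A ^ 2 - 4 * B) → IsSquare (l : ZMod p)

/-- the passive primes: `B` and `A² - 4 B` are not squares modulo `p` -/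
def Pas (A B : ℤ) (p : ℕ) : Prop :=
  p.Prime ∧ ¬ IsSquare ((B : ℤ) : ZMod p) ∧ ¬ IsSquare ((A ^ 2 - 4 * B : ℤ) : ZMod p)

theorem sq2 : ∀ x : ZMod 2, IsSquare x := by decide

variable {A B : ℤ} {p : ℕ}

theorem Act.two_ne (h : Act A B p) : p ≠ 2 := by
  have := h.2.1
  omega

theorem Act.four (h : Act A B p) : p % 4 = 1 := by
  have := h.2.1
  omega

theorem Pas.two_ne (h : Pas A B p) : p ≠ 2 := by
  rintro rfl
  apply h.2.1
  generalize ((B : ℤ) : ZMod 2) = x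
  revert x
  decide

theorem Act.neg_one (h : Act A B p) : IsSquare (-1 : ZMod p) := by
  have : Fact p.Prime := ⟨h.1⟩
  exact ZMod.exists_sq_eq_neg_one_iff.2 (by have := h.2.1; omega)

theorem Act.two (h : Act A B p) : IsSquare (2 : ZMod p) := by
  have : Fact p.Prime := ⟨h.1⟩
  exact (ZMod.exists_sq_eq_two_iff h.two_ne).2 (Or.inl h.2.1)

theorem Act.two0 (h : Act A B p) : (2 : ZMod p) ≠ 0 := by
  have : Fact p.Prime := ⟨h.1⟩
  intro h0
  have h1 : ((2 : ℕ) : ZMod p) = 0 := by exact_mod_cast h0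
  rw [ZMod.natCast_eq_zero_iff] at h1
  exact h.two_ne ((Nat.prime_dvd_prime_iff_eq h.1 Nat.prime_two).1 h1)

theorem two0 {p : ℕ} (hp : p.Prime) (h2 : p ≠ 2) : (2 : ZMod p) ≠ 0 := by
  intro h0
  have h1 : ((2 : ℕ) : ZMod p) = 0 := by exact_mod_cast h0
  rw [ZMod.natCast_eq_zero_iff] at h1
  exact h2 ((Nat.prime_dvd_prime_iff_eq hp Nat.prime_two).1 h1)

/-- the numbers whose prime factors divide `2 B (A² - 4 B)` are squares modulo the active primes -/
theorem Act.nat_sq (h : Act A B p) : ∀ n : ℕ, n ≠ 0 →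
    (∀ l : ℕ, l.Prime → l ∣ n → (l : ℤ) ∣ 2 * (B * (A ^ 2 - 4 * B))) →
    IsSquare (n : ZMod p) ∧ (n : ZMod p) ≠ 0 := by
  have : Fact p.Prime := ⟨h.1⟩
  intro n
  induction n using Nat.strong_induction_on with
  | _ n ih =>
    intro hn hl
    by_cases h1 : n = 1
    · subst h1
      rw [Nat.cast_one]
      exact ⟨IsSquare.one, one_ne_zero⟩
    · obtain ⟨l, hlp, m, rfl⟩ := Nat.exists_prime_and_dvd h1
      have hm : m ≠ 0 := right_ne_zero_of_mul hn
      have hlt : m < l * m := by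
        have := hlp.two_le
        have := Nat.pos_of_ne_zero hm
        nlinarith
      obtain ⟨i1, i2⟩ := ih m hlt hm fun q hq hqm => hl q hq (hqm.mul_left l)
      have k1 : IsSquare (l : ZMod p) ∧ (l : ZMod p) ≠ 0 := by
        have h3 := hl l hlp (Dvd.intro _ rfl)
        rcases (Nat.prime_iff_prime_int.1 hlp).dvd_or_dvd h3 with h4 | h4
        · have h5 : l ∣ 2 := by exact_mod_cast h4
          have h6 := (Nat.prime_dvd_prime_iff_eq hlp Nat.prime_two).1 h5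
          subst h6
          exact ⟨by exact_mod_cast h.two, by exact_mod_cast h.two0⟩
        · refine ⟨h.2.2.2 l hlp h4, ?_⟩
          intro h0
          rw [ZMod.natCast_eq_zero_iff] at h0
          have h5 := (Nat.prime_dvd_prime_iff_eq h.1 hlp).1 h0
          exact h.2.2.1 (h5 ▸ h4)
      push_cast
      exact ⟨k1.1.mul i1, mul_ne_zero k1.2 i2⟩

theorem Act.int_sq (h : Act A B p) {n : ℤ} (hn : n ≠ 0)
    (hl : ∀ l : ℕ, l.Prime → (l : ℤ) ∣ n → (l : ℤ) ∣ 2 * (B * (A ^ 2 - 4 * B))) :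
    IsSquare (n : ZMod p) ∧ (n : ZMod p) ≠ 0 := by
  have : Fact p.Prime := ⟨h.1⟩
  obtain ⟨i1, i2⟩ := h.nat_sq n.natAbs (Int.natAbs_ne_zero.2 hn) fun l hlp hln =>
    hl l hlp (Int.natCast_dvd.2 hln)
  rcases Int.natAbs_eq n with e | e
  · rw [e, Int.cast_natCast]
    exact ⟨i1, i2⟩
  · rw [e, Int.cast_neg, Int.cast_natCast]
    refine ⟨?_, neg_ne_zero.2 i2⟩
    have := h.neg_one.mul i1
    rwa [neg_one_mul] at this

theorem Act.B_sq (h : Act A B p) (hB : B ≠ 0) : IsSquare ((B : ℤ) : ZMod p) :=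
  (h.int_sq hB fun _ _ hl => (hl.mul_right _).mul_left _).1

theorem Act.C_sq (h : Act A B p) (hC : A ^ 2 - 4 * B ≠ 0) :
    IsSquare ((A ^ 2 - 4 * B : ℤ) : ZMod p) :=
  (h.int_sq hC fun _ _ hl => (hl.mul_left _).mul_left _).1

theorem Act.nB (h : Act A B p) : ¬ (p : ℤ) ∣ B := fun h0 => h.2.2.1 (h0.mul_right _)

theorem Act.nC (h : Act A B p) : ¬ (p : ℤ) ∣ (A ^ 2 - 4 * B) := fun h0 => h.2.2.1 (h0.mul_left _)

theorem Act.B0 (h : Act A B p) : ((B : ℤ) : ZMod p) ≠ 0 := by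
  rw [Ne, ZMod.intCast_zmod_eq_zero_iff_dvd]
  exact h.nB

theorem Act.C0 (h : Act A B p) : ((A ^ 2 - 4 * B : ℤ) : ZMod p) ≠ 0 := by
  rw [Ne, ZMod.intCast_zmod_eq_zero_iff_dvd]
  exact h.nC

theorem Pas.B0 (h : Pas A B p) : ((B : ℤ) : ZMod p) ≠ 0 := fun h0 => h.2.1 (by
  rw [h0]
  exact ⟨0, by ring⟩)

theorem Pas.C0 (h : Pas A B p) : ((A ^ 2 - 4 * B : ℤ) : ZMod p) ≠ 0 := fun h0 => h.2.2 (by
  rw [h0]
  exact ⟨0, by ring⟩)

theorem Pas.nB (h : Pas A B p) : ¬ (p : ℤ) ∣ B := by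
  rw [← ZMod.intCast_zmod_eq_zero_iff_dvd]
  exact h.B0

theorem Pas.nC (h : Pas A B p) : ¬ (p : ℤ) ∣ (A ^ 2 - 4 * B) := by
  rw [← ZMod.intCast_zmod_eq_zero_iff_dvd]
  exact h.C0

theorem Act.not_pas (h : Act A B p) (hB : B ≠ 0) : ¬ Pas A B p := fun h' => h'.2.1 (h.B_sq hB)

/-- an active prime is a square modulo the primes which divide `B (A² - 4 B)` -/
theorem Act.rec (h : Act A B p) {l : ℕ} (hl : l.Prime) (h2 : l ≠ 2)
    (hd : (l : ℤ) ∣ B * (A ^ 2 - 4 * B)) : IsSquare (p : ZMod l) := by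
  have : Fact p.Prime := ⟨h.1⟩
  have : Fact l.Prime := ⟨hl⟩
  exact (ZMod.exists_sq_eq_prime_iff_of_mod_four_eq_one h.four h2).1 (h.2.2.2 l hl hd)

/-! ### the dual curve -/

theorem dual_disc (A B : ℤ) : (-2 * A) ^ 2 - 4 * (A ^ 2 - 4 * B) = 16 * B := by ring

theorem dvd_dual {A B : ℤ} {l : ℕ} (hl : l.Prime) :
    (l : ℤ) ∣ (A ^ 2 - 4 * B) * ((-2 * A) ^ 2 - 4 * (A ^ 2 - 4 * B)) ↔
      l = 2 ∨ (l : ℤ) ∣ B * (A ^ 2 - 4 * B) := by
  rw [dual_disc]
  have hP := Nat.prime_iff_prime_int.1 hl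
  constructor
  · intro h
    have e : (A ^ 2 - 4 * B) * (16 * B) = 2 ^ 4 * (B * (A ^ 2 - 4 * B)) := by ring
    rw [e] at h
    rcases hP.dvd_or_dvd h with h1 | h1
    · left
      have h2 := hP.dvd_of_dvd_pow h1
      have h5 : l ∣ 2 := by exact_mod_cast h2
      exact (Nat.prime_dvd_prime_iff_eq hl Nat.prime_two).1 h5
    · exact Or.inr h1
  · rintro (rfl | h)
    · exact ⟨(A ^ 2 - 4 * B) * (8 * B), by push_cast; ring⟩
    · have e : (A ^ 2 - 4 * B) * (16 * B) = 16 * (B * (A ^ 2 - 4 * B)) := by ring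
      rw [e]
      exact h.mul_left _

theorem act_dual : Act (-2 * A) (A ^ 2 - 4 * B) p ↔ Act A B p := by
  unfold Act
  refine and_congr_right fun hp => and_congr_right fun h8 => ?_
  have : Fact p.Prime := ⟨hp⟩
  have hp2 : p ≠ 2 := by rintro rfl; omega
  refine and_congr ?_ ?_
  · rw [dvd_dual hp]
    exact not_congr ⟨fun h => h.resolve_left hp2, Or.inr⟩
  · constructor
    · intro h l hl hd
      exact h l hl ((dvd_dual hl).2 (Or.inr hd))
    · intro h l hl hd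
      rcases (dvd_dual hl).1 hd with rfl | h1
      · exact_mod_cast (ZMod.exists_sq_eq_two_iff hp2).2 (Or.inl h8)
      · exact h l hl h1

theorem pas_dual : Pas (-2 * A) (A ^ 2 - 4 * B) p ↔ Pas A B p := by
  unfold Pas
  refine and_congr_right fun hp => ?_
  rw [dual_disc]
  have : Fact p.Prime := ⟨hp⟩
  by_cases hp2 : p = 2
  · subst hp2
    constructor
    · rintro ⟨h, -⟩
      exact absurd (sq2 _) h
    · rintro ⟨h, -⟩
      exact absurd (sq2 _) h
  have h4 : (4 : ZMod p) ≠ 0 := by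
    have e : (4 : ZMod p) = 2 * 2 := by norm_num
    rw [e]
    exact mul_ne_zero (two0 hp hp2) (two0 hp hp2)
  have e : IsSquare ((16 * B : ℤ) : ZMod p) ↔ IsSquare ((B : ℤ) : ZMod p) := by
    push_cast
    constructor
    · rintro ⟨r, hr⟩
      refine ⟨r / 4, ?_⟩
      rw [div_mul_div_comm, eq_div_iff (mul_ne_zero h4 h4)]
      linear_combination hr
    · rintro ⟨r, hr⟩
      refine ⟨4 * r, ?_⟩
      rw [hr]
      ring
  rw [e]
  exact and_comm

end Q44.TI
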